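import Pool.Agent.V11196.BB.Time

/-!
# MP_325d65_an : the bang-bang property of optimal observation profiles fails

Everything is stated for a general open set `Ω ⊆ ℝ` (`d = q = 1`); the final theorem takes
`Ω = (0,π)`, `T = 1`, `L = 1/2`.
-/

open Filter Topology Set MeasureTheory
open scoped InnerProductSpace ENNReal ComplexConjugate

namespace Pool.Agent.Results.MP_325d65_an.NotBangBang

/-- The state space `L²(Ω; ℂ)`. -/
def L2 (Ω : Set ℝ) : Type := Lp ℂ 2 (volume.restrict Ω)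

noncomputable instance L2.group (Ω : Set ℝ) : NormedAddCommGroup (L2 Ω) :=
  inferInstanceAs (NormedAddCommGroup (Lp ℂ 2 (volume.restrict Ω)))

noncomputable instance L2.ips (Ω : Set ℝ) : InnerProductSpace ℂ (L2 Ω) :=
  inferInstanceAs (InnerProductSpace ℂ (Lp ℂ 2 (volume.restrict Ω)))

/-- A function representing the class `y ∈ L²(Ω; ℂ)`. -/
noncomputable def fn {Ω : Set ℝ} (y : L2 Ω) : ℝ → ℂ :=
  ((show Lp ℂ 2 (volume.restrict Ω) from y) : ℝ → ℂ)

section general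

variable {E : Type*} [NormedAddCommGroup E] [InnerProductSpace ℂ E]

/-- `(S t)_{t ≥ 0}` is a strongly continuous semigroup on `E`. -/
structure IsC0Semigroup (S : ℝ → E →L[ℂ] E) : Prop where
  zero : S 0 = 1
  add : ∀ s t, 0 ≤ s → 0 ≤ t → S (s + t) = S s ∘L S t
  cont : ∀ y, ContinuousOn (fun t => S t y) (Ici 0)

/-- `-A` is the (infinitesimal) generator of `S`: `y ∈ D(A)` and `A y = z` iff
`(y - S(t) y) / t → z` as `t → 0⁺`. -/
def IsNegGenerator (A : E →ₗ.[ℂ] E) (S : ℝ → E →L[ℂ] E) : Prop :=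
  ∀ y z, (y, z) ∈ A.graph ↔
    Tendsto (fun t : ℝ => ((t : ℂ)⁻¹) • (y - S t y)) (𝓝[>] 0) (𝓝 z)

/-- (H1): `b` is a Hilbert basis of eigenvectors of `A`, the eigenvalue of `b j` is `lam j`,
eigenvalues have finite multiplicity, and their real parts are nondecreasing and tend to `+∞`. -/
structure H1 (A : E →ₗ.[ℂ] E) (b : HilbertBasis ℕ ℂ E) (lam : ℕ → ℂ) : Prop where
  eigen : ∀ j, (b j, lam j • b j) ∈ A.graph
  finite_mult : ∀ j, {i | lam i = lam j}.Finite
  mono : Monotone fun j => (lam j).re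
  unbounded : Tendsto (fun j => (lam j).re) atTop atTop

/-- `inf_{y ∈ D(A) \ {0}} ∫_0^T N(S(t) y) dt / ‖S(T) y‖²`. -/
noncomputable def obsInf (A : E →ₗ.[ℂ] E) (S : ℝ → E →L[ℂ] E) (T : ℝ) (N : E → ℝ) : ℝ :=
  sInf {r | ∃ y ∈ A.domain, y ≠ 0 ∧ r = (∫ t in (0:ℝ)..T, N (S t y)) / ‖S T y‖ ^ 2}

end general

/-- (H2): every eigenfunction `b j` is (represented by the function `φ j`, which is) analytic
in `Ω`. -/
structure H2 (Ω : Set ℝ) (b : HilbertBasis ℕ ℂ (L2 Ω)) (φ : ℕ → ℝ → ℂ) : Prop where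
  rep : ∀ j, fn (b j) =ᵐ[volume.restrict Ω] φ j
  analytic : ∀ j, AnalyticOnNhd ℝ (φ j) Ω

/-- The standing assumptions except (H_L): `Ω` is open, bounded and connected, `A` is densely
defined, `-A` generates the strongly continuous semigroup `S`, (H1) and (H2). -/
structure Standing (Ω : Set ℝ) (A : L2 Ω →ₗ.[ℂ] L2 Ω) (S : ℝ → L2 Ω →L[ℂ] L2 Ω)
    (b : HilbertBasis ℕ ℂ (L2 Ω)) (φ : ℕ → ℝ → ℂ) (lam : ℕ → ℂ) : Prop where
  isOpen : IsOpen Ω
  bounded : Bornology.IsBounded Ω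
  connected : IsConnected Ω
  dense : Dense (A.domain : Set (L2 Ω))
  semigroup : IsC0Semigroup S
  generator : IsNegGenerator A S
  h1 : H1 A b lam
  h2 : H2 Ω b φ

/-- `J₁ = {j : Re λ_j = Re λ_0}` (indices start at `0`). -/
def J1 (lam : ℕ → ℂ) : Set ℕ := {j | (lam j).re = (lam 0).re}

/-- The functions `Φ = ∑_{p ∈ J₁} η_p |∑_{j ∈ J₁} β_{j,p} φ_j|²`. -/
noncomputable def Phi (φ : ℕ → ℝ → ℂ) (lam : ℕ → ℂ) (β : ℕ → ℕ → ℝ) (η : ℕ → ℝ) (x : ℝ) : ℝ :=
  ∑ᶠ p ∈ J1 lam, η p * ‖∑ᶠ j ∈ J1 lam, (β j p : ℂ) * φ j x‖ ^ 2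

/-- The superlevel set `{x ∈ Ω : Φ x ≥ ν}`. -/
def Sup (Ω : Set ℝ) (Φ : ℝ → ℝ) (ν : ℝ) : Set ℝ := {x | x ∈ Ω ∧ ν ≤ Φ x}

/-- `inf |Φ'| > 0` on `∂{Φ ≥ ν} \ ∂Ω`. -/
def GradBound (Ω : Set ℝ) (Φ : ℝ → ℝ) (ν : ℝ) : Prop :=
  ∃ c > 0, ∀ x ∈ frontier (Sup Ω Φ ν) \ frontier Ω, c ≤ |deriv Φ x|

/-- (H_L). For each `Φ` there is a level `ν > 0` with `|{Φ ≥ ν}| = L |Ω|`, and for every such
level `|Φ'|` is bounded below by a positive constant on `∂{Φ ≥ ν} \ ∂Ω`. -/
def HL (Ω : Set ℝ) (φ : ℕ → ℝ → ℂ) (lam : ℕ → ℂ) (L : ℝ) : Prop :=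
  (∀ j ∈ J1 lam, ContDiffOn ℝ 1 (φ j) (closure Ω)) ∧
  ∀ (β : ℕ → ℕ → ℝ) (η : ℕ → ℝ), (∃ j ∈ J1 lam, ∃ p ∈ J1 lam, β j p ≠ 0) →
    (∀ p ∈ J1 lam, 0 ≤ η p ∧ η p ≤ 1) → ∑ᶠ p ∈ J1 lam, η p = 1 →
    (∃ ν > 0, volume (Sup Ω (Phi φ lam β η) ν) = ENNReal.ofReal L * volume Ω) ∧
    ∀ ν > 0, volume (Sup Ω (Phi φ lam β η) ν) = ENNReal.ofReal L * volume Ω →
      GradBound Ω (Phi φ lam β η) ν

/-- `∫_Ω a |y|²`. -/
noncomputable def energy (Ω : Set ℝ) (a : ℝ → ℝ) (y : L2 Ω) : ℝ :=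
  ∫ x in Ω, a x * ‖fn y x‖ ^ 2

/-- The relaxed observability constant
`C_T(a) = inf_{y⁰ ∈ D(A) \ {0}} ∫_0^T ∫_Ω a |S(t) y⁰|² dx dt / ‖S(T) y⁰‖²`. -/
noncomputable def obsConst {Ω : Set ℝ} (A : L2 Ω →ₗ.[ℂ] L2 Ω) (S : ℝ → L2 Ω →L[ℂ] L2 Ω)
    (T : ℝ) (a : ℝ → ℝ) : ℝ :=
  obsInf A S T (energy Ω a)

/-- The class of admissible profiles: `a ∈ L^∞(Ω; [0,1])` with `∫_Ω a = L |Ω|`. -/
def Adm (Ω : Set ℝ) (L : ℝ) : Set (ℝ → ℝ) :=
  {a | AEStronglyMeasurable a (volume.restrict Ω) ∧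
    (∀ᵐ x ∂(volume.restrict Ω), 0 ≤ a x ∧ a x ≤ 1) ∧ ∫ x in Ω, a x = L * (volume Ω).toReal}

/-- `a` is an optimal profile. -/
def IsMaximiser {Ω : Set ℝ} (A : L2 Ω →ₗ.[ℂ] L2 Ω) (S : ℝ → L2 Ω →L[ℂ] L2 Ω) (T L : ℝ)
    (a : ℝ → ℝ) : Prop :=
  a ∈ Adm Ω L ∧ ∀ a' ∈ Adm Ω L, obsConst A S T a' ≤ obsConst A S T a

/-- `a` is a characteristic function on `Ω`. -/
def IsChar (Ω : Set ℝ) (a : ℝ → ℝ) : Prop :=
  ∃ ω : Set ℝ, MeasurableSet ω ∧ ∀ᵐ x ∂(volume.restrict Ω), a x = ω.indicator (fun _ => (1:ℝ)) x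

/-- The interval `(0,π)`. -/
def Om : Set ℝ := Ioo 0 Real.pi

section proofs

open V11196.BB

section
variable {E : Type*} [NormedAddCommGroup E] [InnerProductSpace ℂ E]

/-- graph of minus the generator -/
def genGraph (S : ℝ → E →L[ℂ] E) : Submodule ℂ (E × E) where
  carrier := {p | Tendsto (fun t : ℝ => ((t : ℂ)⁻¹) • (p.1 - S t p.1)) (𝓝[>] 0) (𝓝 p.2)}
  add_mem' := by
    intro p q hp hq
    have h := hp.add hq
    refine h.congr fun t => ?_
    rw [← smul_add, Prod.fst_add, map_add]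
    congr 1
    abel
  zero_mem' := by
    simp
  smul_mem' := by
    intro c p hp
    have h := hp.const_smul c
    refine h.congr fun t => ?_
    rw [Prod.smul_fst, map_smul, ← smul_sub, smul_comm]

/-- minus the generator -/
noncomputable def AA (S : ℝ → E →L[ℂ] E) : E →ₗ.[ℂ] E :=
  (genGraph S).toLinearPMap

lemma AA_gen (S : ℝ → E →L[ℂ] E) : IsNegGenerator (AA S) S := by
  intro y z
  rw [AA, Submodule.toLinearPMap_graph_eq]
  · rfl
  · intro p hp hp1
    have hp' : Tendsto (fun t : ℝ => ((t : ℂ)⁻¹) • (p.1 - S t p.1)) (𝓝[>] 0) (𝓝 p.2) := hp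
    rw [hp1] at hp'
    simp only [map_zero, sub_self, smul_zero] at hp'
    exact tendsto_nhds_unique hp' tendsto_const_nhds

end

lemma J1_lam : J1 lam = {0} := by
  ext j
  simp only [J1, mem_ofPred_eq, mem_singleton_iff]
  constructor
  · intro h
    by_contra hj
    have h1 : 1 ≤ j := Nat.one_le_iff_ne_zero.mpr hj
    have h2 := lam_mono h1
    simp only at h2
    rw [lam_re_one, h, lam_re_zero] at h2
    norm_num at h2
  · rintro rfl; rfl

lemma Phi_eq (β : ℕ → ℕ → ℝ) (η : ℕ → ℝ) (hη : η 0 = 1) :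
    Phi phi lam β η = fun x => (β 0 0 ^ 2 * (2 / Real.pi)) * Real.sin x ^ 2 := by
  ext x
  unfold Phi
  rw [J1_lam, finsum_mem_singleton, finsum_mem_singleton, hη, one_mul, norm_mul, phi,
    Complex.norm_real, Complex.norm_real, mul_pow, Real.norm_eq_abs, Real.norm_eq_abs, sq_abs,
    sq_abs, e_zero, mul_pow, Real.sq_sqrt (by have := Real.pi_pos; positivity)]
  ring

lemma superlevel {c s : ℝ} (hc : 0 < c) (hs0 : 0 < s) (hs : s ≤ Real.pi / 2) :
    Sup (Ioo 0 Real.pi) (fun x => c * Real.sin x ^ 2) (c * Real.sin s ^ 2)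
      = Icc s (Real.pi - s) := by
  have hpi := Real.pi_pos
  have hss : 0 < Real.sin s := Real.sin_pos_of_pos_of_lt_pi hs0 (by linarith)
  ext x
  simp only [Sup, mem_ofPred_eq, mem_Ioo, mem_Icc]
  constructor
  · rintro ⟨⟨hx0, hx1⟩, hx⟩
    have hsx : 0 < Real.sin x := Real.sin_pos_of_pos_of_lt_pi hx0 hx1
    have h1 : Real.sin s ≤ Real.sin x := by
      have := le_of_mul_le_mul_left hx hc
      exact le_of_sq_le_sq this hsx.le
    constructor
    · by_contra h
      push Not at h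
      have := Real.sin_lt_sin_of_lt_of_le_pi_div_two (by linarith) hs h
      linarith
    · by_contra h
      push Not at h
      have := Real.sin_lt_sin_of_lt_of_le_pi_div_two (x := Real.pi - x) (by linarith) hs
        (by linarith)
      rw [Real.sin_pi_sub] at this
      linarith
  · rintro ⟨h1, h2⟩
    refine ⟨⟨by linarith, by linarith⟩, ?_⟩
    have h3 : Real.sin s ≤ Real.sin x := by
      rcases le_total x (Real.pi / 2) with h | h
      · exact Real.sin_le_sin_of_le_of_le_pi_div_two (by linarith) h h1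
      · rw [← Real.sin_pi_sub x]
        exact Real.sin_le_sin_of_le_of_le_pi_div_two (by linarith) (by linarith) (by linarith)
    gcongr

lemma HL_holds (L : ℝ) (hL0 : 0 < L) (hL1 : L < 1) : HL (Ioo 0 Real.pi) phi lam L := by
  have hpi := Real.pi_pos
  refine ⟨?_, ?_⟩
  · intro j _
    apply ContDiff.contDiffOn
    have h : ContDiff ℝ 1 (fun x : ℝ => √(2 / Real.pi) * Real.sin (freq j * x + ph j)) := by
      fun_prop
    exact Complex.ofRealCLM.contDiff.comp h
  · intro β η hβ hη hs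
    rw [J1_lam, finsum_mem_singleton] at hs
    rw [J1_lam] at hβ
    obtain ⟨j, hj, p, hp, hβ'⟩ := hβ
    rw [mem_singleton_iff] at hj hp
    subst hj hp
    rw [Phi_eq β η hs]
    set c : ℝ := β 0 0 ^ 2 * (2 / Real.pi) with hc
    have hc0 : 0 < c := by positivity
    have hvol : ENNReal.ofReal L * volume (Ioo 0 Real.pi) = ENNReal.ofReal (L * Real.pi) := by
      rw [Real.volume_Ioo, sub_zero, ENNReal.ofReal_mul hL0.le]
    set θ : ℝ := (1 - L) * Real.pi / 2 with hθ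
    have hθ0 : 0 < θ := by
      rw [hθ]
      have : 0 < (1 - L) := by linarith
      positivity
    have hθ1 : θ < Real.pi / 2 := by
      rw [hθ]; nlinarith
    have hsθ : 0 < Real.sin θ := Real.sin_pos_of_pos_of_lt_pi hθ0 (by linarith)
    refine ⟨⟨c * Real.sin θ ^ 2, by positivity, ?_⟩, ?_⟩
    · rw [superlevel hc0 hθ0 hθ1.le, hvol, Real.volume_Icc]
      congr 1
      rw [hθ]; ring
    · intro ν hν hvν
      have hνc : ν ≤ c := by
        by_contra h
        push Not at h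
        have : Sup (Ioo 0 Real.pi) (fun x => c * Real.sin x ^ 2) ν = ∅ := by
          ext x
          simp only [Sup, mem_ofPred_eq, mem_empty_iff_false, iff_false, not_and, not_le]
          intro _
          have := Real.sin_sq_le_one x
          nlinarith
        rw [this, measure_empty, hvol] at hvν
        have h2 := (ENNReal.ofReal_eq_zero.mp hvν.symm)
        nlinarith
      -- the level is `c sin² s`
      set s : ℝ := Real.arcsin (√(ν / c)) with hsdef
      have hq0 : 0 < ν / c := by positivity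
      have hq1 : ν / c ≤ 1 := by rw [div_le_one hc0]; exact hνc
      have hsq0 : 0 < √(ν / c) := Real.sqrt_pos.mpr hq0
      have hsq1 : √(ν / c) ≤ 1 := by rw [Real.sqrt_le_one]; exact hq1
      have hs0 : 0 < s := Real.arcsin_pos.mpr hsq0
      have hs1 : s ≤ Real.pi / 2 := Real.arcsin_le_pi_div_two _
      have hsin : Real.sin s = √(ν / c) := Real.sin_arcsin (by linarith) hsq1
      have hνs : ν = c * Real.sin s ^ 2 := by
        rw [hsin, Real.sq_sqrt hq0.le]; field_simp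
      rw [hνs, superlevel hc0 hs0 hs1, hvol, Real.volume_Icc] at hvν
      have h3 : Real.pi - s - s = L * Real.pi := by
        have h4 : 0 ≤ Real.pi - s - s := by linarith
        have h5 : 0 ≤ L * Real.pi := by positivity
        exact (ENNReal.ofReal_eq_ofReal_iff h4 h5).mp hvν
      have hs2 : s < Real.pi / 2 := by nlinarith
      have hcos : 0 < Real.cos s := Real.cos_pos_of_mem_Ioo ⟨by linarith, hs2⟩
      have hsins : 0 < Real.sin s := by rw [hsin]; exact hsq0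
      refine ⟨2 * c * Real.sin s * Real.cos s, by positivity, ?_⟩
      rw [hνs, superlevel hc0 hs0 hs1, frontier_Icc (by linarith)]
      have hder : ∀ x, deriv (fun x => c * Real.sin x ^ 2) x = 2 * c * Real.sin x * Real.cos x := by
        intro x
        have h : HasDerivAt (fun x => c * Real.sin x ^ 2)
            (c * (((2 : ℕ) : ℝ) * Real.sin x ^ (2 - 1) * Real.cos x)) x :=
          ((Real.hasDerivAt_sin x).pow 2).const_mul c
        rw [h.deriv]
        simp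
        ring
      rintro x ⟨hx, _⟩
      rw [hder]
      rcases hx with rfl | hx
      · exact le_abs_self _
      · rw [mem_singleton_iff] at hx
        rw [hx, Real.sin_pi_sub, Real.cos_pi_sub]
        have : 2 * c * Real.sin s * -Real.cos s = -(2 * c * Real.sin s * Real.cos s) := by ring
        rw [this, abs_neg]
        exact le_abs_self _

lemma hb_graph (j : ℕ) : ((hb j, lam j • hb j) : Lp ℂ 2 mu × Lp ℂ 2 mu) ∈ (AA St).graph := by
  rw [AA_gen St]
  exact gen_basis hb lam 1 lam_lower j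

lemma hb_dom (j : ℕ) : hb j ∈ (AA St).domain :=
  LinearPMap.mem_domain_of_mem_graph (hb_graph j)

lemma upper_bound (a : ℝ → ℝ) (ha : a ∈ Adm (Ioo 0 Real.pi) (1 / 2)) :
    obsInf (AA St) St 1 (NN a) ≤ Cbar := by
  obtain ⟨hm, hb01, hint⟩ := ha
  have hpi := Real.pi_pos
  unfold obsInf
  set X : Set ℝ := {r | ∃ y ∈ (AA St).domain, y ≠ 0 ∧
      r = (∫ t in (0:ℝ)..1, NN a (St t y)) / ‖St 1 y‖ ^ 2} with hX
  have hbdd : BddBelow X := by
    refine ⟨0, ?_⟩
    rintro r ⟨y, _, _, rfl⟩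
    apply div_nonneg _ (by positivity)
    apply intervalIntegral.integral_nonneg (by norm_num)
    intro t _
    exact NN_nonneg a hb01 _
  have hne : ∀ j, hb j ≠ 0 := fun j => hb.orthonormal.ne_zero j
  have h0 : (1 - uu ^ 2) / 2 * ∫ x, a x * e 0 x ^ 2 ∂mu ∈ X :=
    ⟨hb 0, hb_dom 0, hne 0, (upper0 a).symm⟩
  have h1 : (1 - uu) * ∫ x, a x * e 1 x ^ 2 ∂mu ∈ X :=
    ⟨hb 1, hb_dom 1, hne 1, (upper1 a).symm⟩
  have hsum := A_sum a hm hb01
  have hint' : ∫ x, a x ∂mu = Real.pi / 2 := by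
    rw [hint, Real.volume_Ioo, sub_zero, ENNReal.toReal_ofReal hpi.le]; ring
  rw [hint'] at hsum
  have hsum' : (∫ x, a x * e 0 x ^ 2 ∂mu) + ∫ x, a x * e 1 x ^ 2 ∂mu = 1 := by
    rw [hsum]; field_simp
  have hu := uu_pos
  have hu1 := uu_lt
  rcases le_total (∫ x, a x * e 0 x ^ 2 ∂mu) (2 / (3 + uu)) with h | h
  · refine (csInf_le hbdd h0).trans ?_
    have h2 : (1 - uu ^ 2) / 2 * ∫ x, a x * e 0 x ^ 2 ∂mu ≤ (1 - uu ^ 2) / 2 * (2 / (3 + uu)) := by
      apply mul_le_mul_of_nonneg_left h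
      nlinarith
    refine h2.trans (le_of_eq ?_)
    unfold Cbar
    field_simp
  · refine (csInf_le hbdd h1).trans ?_
    have h3 : ∫ x, a x * e 1 x ^ 2 ∂mu ≤ (1 + uu) / (3 + uu) := by
      have h4 : (1 + uu) / (3 + uu) = 1 - 2 / (3 + uu) := by field_simp; ring
      rw [h4]; linarith
    have h2 : (1 - uu) * ∫ x, a x * e 1 x ^ 2 ∂mu ≤ (1 - uu) * ((1 + uu) / (3 + uu)) := by
      apply mul_le_mul_of_nonneg_left h3
      linarith
    refine h2.trans (le_of_eq ?_)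
    unfold Cbar
    field_simp
    ring

lemma St_ne (y : Lp ℂ 2 mu) (hy : y ≠ 0) : St 1 y ≠ 0 := by
  intro h
  apply hy
  apply ext_repr hb
  intro j
  have h1 : hb.repr (St 1 y) j = 0 := by rw [h]; simp
  rw [repr_SG] at h1
  rcases mul_eq_zero.mp h1 with h2 | h2
  · exact absurd h2 (Complex.exp_ne_zero _)
  · rw [h2]; simp

lemma lower_bound' : Cbar ≤ obsInf (AA St) St 1 (NN astar) := by
  unfold obsInf
  apply le_csInf
  · exact ⟨_, hb 0, hb_dom 0, hb.orthonormal.ne_zero 0, rfl⟩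
  · rintro r ⟨y, _, hy, rfl⟩
    have h1 : 0 < ‖St 1 y‖ ^ 2 := by
      have := norm_pos_iff.mpr (St_ne y hy)
      positivity
    rw [le_div_iff₀ h1]
    exact lower_bound y

lemma astar_adm : astar ∈ Adm (Ioo 0 Real.pi) (1 / 2) := by
  refine ⟨astar_meas, astar_b, ?_⟩
  have hpi := Real.pi_pos
  rw [Real.volume_Ioo, sub_zero, ENNReal.toReal_ofReal hpi.le]
  rw [show (∫ x in Ioo 0 Real.pi, astar x) = ∫ x, astar x ∂mu from rfl, integral_mu_eq]
  unfold astar
  rw [intervalIntegral.integral_sub (by apply Continuous.intervalIntegrable; fun_prop)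
    (by apply Continuous.intervalIntegrable; fun_prop), intervalIntegral.integral_const_mul]
  have h := int_cos_zero 1 (by norm_num) 0
  simp only [Int.cast_one, mul_one, add_zero] at h
  rw [h]
  simp
  ring

end proofs

/-- There is a system on `Ω = (0,π)` satisfying all standing assumptions (and `(H_L)` for every
`L ∈ (0,1)`), for which, with `T = 1` and `L = 1/2`, some maximiser of `C_T` is an analytic
function taking values strictly between `0` and `1`; in particular it is not a characteristic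
function. -/
theorem result :
    ∃ (A : L2 Om →ₗ.[ℂ] L2 Om) (S : ℝ → L2 Om →L[ℂ] L2 Om)
      (b : HilbertBasis ℕ ℂ (L2 Om)) (φ : ℕ → ℝ → ℂ) (lam : ℕ → ℂ),
      Standing Om A S b φ lam ∧ (∀ L : ℝ, 0 < L → L < 1 → HL Om φ lam L) ∧
      ∃ a : ℝ → ℝ, IsMaximiser A S 1 (1 / 2) a ∧ AnalyticOnNhd ℝ a univ ∧
        (∀ x, 0 < a x ∧ a x < 1) ∧ ¬ IsChar Om a := by
  have hpi := Real.pi_pos
  have hdense : Dense ((AA V11196.BB.St).domain : Set (Lp ℂ 2 V11196.BB.mu)) := by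
    have h1 : Submodule.span ℂ (range V11196.BB.hb) ≤ (AA V11196.BB.St).domain := by
      rw [Submodule.span_le]
      rintro _ ⟨j, rfl⟩
      exact hb_dom j
    have h2 : Dense (Submodule.span ℂ (range V11196.BB.hb) : Set (Lp ℂ 2 V11196.BB.mu)) := by
      rw [Submodule.dense_iff_topologicalClosure_eq_top]
      exact V11196.BB.hb.dense_span
    exact h2.mono h1
  have hsemi : IsC0Semigroup V11196.BB.St :=
    ⟨V11196.BB.SG_zero _ _ _ _, fun s t hs ht => V11196.BB.SG_add _ _ _ _ hs ht,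
      fun y => (V11196.BB.SG_continuous _ _ _ _ y).continuousOn⟩
  have hH1 : H1 (AA V11196.BB.St) V11196.BB.hb V11196.BB.lam := by
    refine ⟨hb_graph, ?_, V11196.BB.lam_mono, V11196.BB.lam_tendsto⟩
    intro j
    have h1 := V11196.BB.lam_tendsto.eventually_gt_atTop (V11196.BB.lam j).re
    rw [eventually_atTop] at h1
    obtain ⟨N, hN⟩ := h1
    apply (finite_lt_nat N).subset
    intro i hi
    simp only [mem_ofPred_eq] at hi ⊢
    by_contra h
    push Not at h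
    have := hN i h
    rw [hi] at this
    exact lt_irrefl _ this
  refine ⟨(AA V11196.BB.St : Lp ℂ 2 V11196.BB.mu →ₗ.[ℂ] Lp ℂ 2 V11196.BB.mu),
    V11196.BB.St, V11196.BB.hb, V11196.BB.phi, V11196.BB.lam, ⟨isOpen_Ioo,
    Metric.isBounded_Ioo _ _, isConnected_Ioo hpi, hdense, hsemi, AA_gen V11196.BB.St, hH1, ?_⟩,
    HL_holds, V11196.BB.astar, ⟨astar_adm, ?_⟩, ?_, ?_, ?_⟩
  · refine ⟨V11196.BB.hb_coe, ?_⟩
    intro j x _
    unfold V11196.BB.phi V11196.BB.e
    apply AnalyticAt.fun_comp (g := fun y : ℝ => (y : ℂ))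
    · exact Complex.ofRealCLM.analyticAt _
    · fun_prop
  · intro a' ha'
    exact (upper_bound a' ha').trans lower_bound'
  · intro x _
    unfold V11196.BB.astar
    fun_prop
  · exact fun x => ⟨V11196.BB.astar_pos x, V11196.BB.astar_lt x⟩
  · rintro ⟨ω, _, hω⟩
    have h2 : ∀ᵐ x ∂(volume.restrict (Ioo 0 Real.pi)), False := by
      filter_upwards [hω] with x hx
      by_cases hxω : x ∈ ω
      · rw [indicator_of_mem hxω] at hx
        exact absurd hx (V11196.BB.astar_lt x).ne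
      · rw [indicator_of_notMem hxω] at hx
        exact absurd hx (V11196.BB.astar_pos x).ne'
    rw [eventually_false_iff_eq_bot, ae_eq_bot, Measure.restrict_eq_zero, Real.volume_Ioo,
      sub_zero, ENNReal.ofReal_eq_zero] at h2
    linarith

end Pool.Agent.Results.MP_325d65_an.NotBangBang
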